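import Pool.Agent.K3h17.Gg

/-!
# Alternating fibre powers of ALL finite embedding problems over number fields

Let `K` be a number field, `L / K` a finite Galois extension with group `Γ` and `α : B → Γ` any
surjective homomorphism of finite groups (a finite embedding problem over `K`, split or not, with
any kernel, solvable over `K` or not).  For `n = 4 |Γ| r (2 k + 1)` with `r` large in terms of
`(K, L, B, α)` and `k` large in terms of these and `r`, the alternating fibre power
`{(b, σ, ρ) ∈ (B ≀ A_n) × Γ : α (b i) = ρ for all i}` of `α`, an extension of `Γ` by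
`ker α ≀ A_n`, is the group of a Galois extension `M / K` with `L ⊆ M` whose restriction to `L` is
`(b, σ, ρ) ↦ ρ`: the embedding problem for the alternating fibre power has a proper solution.  If
`α` splits then the factor `|Γ|` can be omitted.
-/

set_option autoImplicit false

namespace Pool.Agent.Results.MP_dadaab_nt.EmbeddingProblems

/-- The wreath product `B ≀ S_n = B^n ⋊ S_n`. -/
abbrev Wreath (B : Type) [Group B] (n : ℕ) : Type :=
  (Fin n → B) ⋊[mulAutArrow] Equiv.Perm (Fin n)

/-- `z = (b, σ, ρ)` satisfies `α (b i) = ρ` for all `i`, and `σ` is even. -/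
def InAltPower {Γ B : Type} [Group Γ] [Group B] (α : B →* Γ) (n : ℕ) (z : Wreath B n × Γ) :
    Prop :=
  (∀ i, α (z.1.left i) = z.2) ∧ Equiv.Perm.sign z.1.right = 1

theorem one_mem {Γ B : Type} [Group Γ] [Group B] (α : B →* Γ) (n : ℕ) : InAltPower α n 1 :=
  (Y793.AltEP α n).one_mem

theorem mul_mem {Γ B : Type} [Group Γ] [Group B] (α : B →* Γ) (n : ℕ) {a b : Wreath B n × Γ}
    (ha : InAltPower α n a) (hb : InAltPower α n b) : InAltPower α n (a * b) :=
  (Y793.AltEP α n).mul_mem ha hb

theorem inv_mem {Γ B : Type} [Group Γ] [Group B] (α : B →* Γ) (n : ℕ) {a : Wreath B n × Γ}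
    (ha : InAltPower α n a) : InAltPower α n a⁻¹ :=
  (Y793.AltEP α n).inv_mem ha

/-- The alternating fibre power of `α : B → Γ` of degree `n`: the group of all `(b, σ, ρ)` with
`b ∈ B^n`, `σ` an even permutation of `{1, ..., n}` (so `(b, σ)` is in the wreath product
`B ≀ A_n = B^n ⋊ A_n`) and `ρ ∈ Γ` such that `α (b i) = ρ` for all `i`. -/
def AltPower {Γ B : Type} [Group Γ] [Group B] (α : B →* Γ) (n : ℕ) : Subgroup (Wreath B n × Γ) where
  carrier := {z | InAltPower α n z}
  one_mem' := one_mem α n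
  mul_mem' := mul_mem α n
  inv_mem' := inv_mem α n

/-- The isomorphism `γ` of `Gal(M / K)` with the alternating fibre power is compatible with the
restriction to `L ⊆ M`: every `σ` acts on `L` as the third component `ρ` of `γ σ`. -/
def Compatible {K L M : Type} [Field K] [Field L] [Algebra K L] [Field M] [Algebra K M]
    [Algebra L M] {B : Type} [Group B] {α : B →* (L ≃ₐ[K] L)} {n : ℕ}
    (γ : (M ≃ₐ[K] M) ≃* AltPower α n) : Prop :=
  ∀ (σ : M ≃ₐ[K] M) (x : L), σ (algebraMap L M x) = algebraMap L M ((γ σ).1.2 x)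

/-- There are a Galois extension `M / K` which contains `L` and an isomorphism `γ` of
`Gal(M / K)` with the alternating fibre power of `α` of degree `n` which is compatible with the
restriction to `L`. -/
def Solvable (K L : Type) [Field K] [Field L] [Algebra K L] {B : Type} [Group B]
    (α : B →* (L ≃ₐ[K] L)) (n : ℕ) : Prop :=
  ∃ (M : Type) (_ : Field M) (_ : Algebra K M) (_ : Algebra L M) (_ : IsScalarTower K L M),
    IsGalois K M ∧ ∃ γ : (M ≃ₐ[K] M) ≃* AltPower α n, Compatible γ

theorem result (K L : Type) [Field K] [NumberField K] [Field L] [Algebra K L]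
    [FiniteDimensional K L] [IsGalois K L] (B : Type) [Group B] [Finite B]
    (α : B →* (L ≃ₐ[K] L)) (hα : Function.Surjective α) (u : ℕ)
    (hu : u = Nat.card (L ≃ₐ[K] L) ∨ u = 1 ∧ ∃ s : (L ≃ₐ[K] L) →* B, ∀ ρ, α (s ρ) = ρ) :
    ∃ r₀ : ℕ, ∀ r ≥ r₀, ∃ k₀ : ℕ, ∀ k ≥ k₀, Solvable K L α (4 * u * r * (2 * k + 1)) := by
  obtain ⟨r₀, h⟩ := K3h17.hil_alt K L (H391R2.T4.hilb_numberField K) B α hα u hu
  refine ⟨r₀, fun r hr => ?_⟩
  obtain ⟨k₀, h2⟩ := h r hr
  refine ⟨k₀, fun k hk => ?_⟩
  obtain ⟨M, j1, j2, j3, j4, j5, j6, j7, j8, γ, hγ, -⟩ := h2 k hk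
  have h3 : j4 = j2 := Algebra.algebra_ext j4 j2 (fun x => by
    have h4 := @IsScalarTower.algebraMap_apply K K M _ _ _ _ j2 j4 j5 x
    exact h4)
  subst h3
  exact ⟨M, j1, j4, j3, j6, j8, γ, hγ⟩

end Pool.Agent.Results.MP_dadaab_nt.EmbeddingProblems
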