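import Mathlib
import Pool.Agent.K3h17.T.Gm

/-!
# All groups between the commutator subgroup of `G ≀ S_n` and `G ≀ S_n`

Let `G` be ANY finite group, `m ≥ 2 |G^ab| + 2` even and `n = m r (2 k + 1)` with `r` large in terms
of `G` and `m` and prime to `2 |G|`, and `k` large in terms of `G`, `m` and `r` with `2 k + 1` prime
to `|G|`.  Then EVERY subgroup `H` of the wreath product `G ≀ S_n` which contains the commutator
subgroup `{(f, σ) : ∏ [f i] = 1 in G^ab, σ even}` of `G ≀ S_n` is the Galois group of a Galois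
extension of `K(t)` in which `K` is algebraically closed, for every field `K` of characteristic
zero, and the Galois group of a Galois extension of `K` for every number field `K`.
-/

set_option autoImplicit false

namespace Pool.Agent.Results.MP_dadaab_nt.IntermediateWreath

/-- The wreath product `G ≀ S_n = G^n ⋊ S_n`. -/
abbrev Wreath (G : Type) [Group G] (n : ℕ) : Type :=
  (Fin n → G) ⋊[mulAutArrow] Equiv.Perm (Fin n)

/-- `A` is the Galois group of a Galois extension of `K`. -/
def Realizable (K A : Type) [Field K] [Group A] : Prop :=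
  ∃ (L : Type) (_ : Field L) (_ : Algebra K L), IsGalois K L ∧ Nonempty (A ≃* (L ≃ₐ[K] L))

/-- `A` is the Galois group of a Galois extension of `K(t)` in which `K` is algebraically
closed. -/
def RegularlyRealizable (K A : Type) [Field K] [Group A] : Prop :=
  ∃ (F : Type) (_ : Field F) (_ : Algebra (RatFunc K) F) (_ : Algebra K F)
    (_ : IsScalarTower K (RatFunc K) F),
    IsGalois (RatFunc K) F ∧ Nonempty (A ≃* (F ≃ₐ[RatFunc K] F)) ∧
      ∀ y : F, IsAlgebraic K y → y ∈ Set.range (algebraMap K F)

theorem result (G : Type) [Group G] [Finite G] (m : ℕ)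
    (hm : 2 * Nat.card (Abelianization G) + 2 ≤ m) (hev : Even m) :
    ∃ r₀ : ℕ, ∀ r ≥ r₀, r.Coprime (2 * Nat.card G) → ∃ k₀ : ℕ, ∀ k ≥ k₀,
      (2 * k + 1).Coprime (Nat.card G) → ∀ H : Subgroup (Wreath G (m * r * (2 * k + 1))),
        commutator (Wreath G (m * r * (2 * k + 1))) ≤ H →
        ∀ (K : Type) [Field K] [CharZero K],
          RegularlyRealizable K H ∧ (NumberField K → Realizable K H) := by
  obtain ⟨r₀, h⟩ := K3h17.T.mainI_unif G m hm hev
  refine ⟨r₀, fun r hr hrc => ?_⟩
  obtain ⟨k₀, h2⟩ := h r hr hrc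
  refine ⟨k₀, fun k hk hkc H hH K _ _ => ?_⟩
  have h3 := h2 k hk hkc H hH K
  refine ⟨Y793.reg_out K _ h3, fun hK => ?_⟩
  have hf : Finite (H391R2.Wr G (m * r * (2 * k + 1))) := H391R2.T4.finite_wr G _
  exact Y793.hil_out K _ (H391R2.T4.hilb_numberField K) h3

end Pool.Agent.Results.MP_dadaab_nt.IntermediateWreath
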