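import Mathlib
import Pool.Agent.K3h17.T.Gn

/-!
# Embedding problems with perfect kernels `(G ≀ S_n)'`

Let `K` be a field of characteristic zero, `L / K` a finite Galois extension with group `Γ` and `G`
ANY finite group with an action `φ` of `Γ`.  Let `s` be a homomorphism from `Γ` to the wreath
product `(G ⋊ Γ) ≀ S_m` all whose components lie over `ρ ∈ Γ` (a twisted homomorphism from `Γ` to
`G ≀ S_m`, for example `s ρ = ((1, ρ), ..., (1, ρ), 1)`), `m ≥ 4` even.  For `q ≥ 1` and `n = m q` let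
`Ext φ s q` be the group of all `(f, ρ, σ)`, `f ∈ G^n`, `ρ ∈ Γ`, `σ ∈ S_n` (as a subgroup of
`((G ⋊ Γ) ≀ S_n) × Γ`) such that `∏ [f_i] = (∏ [s(ρ)_j])^q` in the abelianization of `G` and
`sign σ = (sign s(ρ))^q`; for the trivial `s` above it is `(G ≀ S_n)' ⋊ Γ`, `Γ` acting by `φ` on all
coordinates.  It is an extension of `Γ` by the perfect group `(G ≀ S_n)'`.

For all `r` large in terms of `K, L, G, φ, s` and all `k` large in terms of these and `r`, the group
`Ext φ s (r (2 k + 1))` is the group of a Galois extension `F / K(t)` which contains `L`, with `L`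
algebraically closed in `F`, and restriction to `L` is the projection to `Γ`.  If `K` is a number
field, it is also the group of a Galois extension of `K` which contains `L`, in the same way.
-/

set_option autoImplicit false

namespace Pool.Agent.Results.MP_dadaab_nt.PerfectKernels

/-- The wreath product `B ≀ S_n = B^n ⋊ S_n`. -/
abbrev Wreath (B : Type) [Group B] (n : ℕ) : Type :=
  (Fin n → B) ⋊[mulAutArrow] Equiv.Perm (Fin n)

section defs

variable {Γ G : Type} [Group Γ] [Group G] (φ : Γ →* MulAut G)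

/-- All components of `s ρ` lie over `ρ`. -/
def Over {m : ℕ} (s : Γ →* Wreath (G ⋊[φ] Γ) m) : Prop :=
  ∀ ρ i, ((s ρ).left i).right = ρ

/-- `z = (f, ρ, σ)` satisfies `∏ [f_i] = (∏ [s(ρ)_j])^q` and `sign σ = (sign s(ρ))^q`. -/
def InExt {m : ℕ} (s : Γ →* Wreath (G ⋊[φ] Γ) m) (q : ℕ) (z : Wreath (G ⋊[φ] Γ) (m * q) × Γ) :
    Prop :=
  (∀ i, (z.1.left i).right = z.2) ∧
    ∏ i, Abelianization.of (z.1.left i).left =
      (∏ j, Abelianization.of ((s z.2).left j).left) ^ q ∧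
    Equiv.Perm.sign z.1.right = Equiv.Perm.sign (s z.2).right ^ q

theorem one_mem {m : ℕ} (s : Γ →* Wreath (G ⋊[φ] Γ) m) (hs : Over φ s) (q : ℕ) :
    InExt φ s q 1 :=
  (K3h17.T.map_ES φ s hs q (m * q) 1).1 (Subgroup.one_mem _)

theorem mul_mem {m : ℕ} (s : Γ →* Wreath (G ⋊[φ] Γ) m) (hs : Over φ s) (q : ℕ)
    {a b : Wreath (G ⋊[φ] Γ) (m * q) × Γ} (ha : InExt φ s q a) (hb : InExt φ s q b) :
    InExt φ s q (a * b) :=
  (K3h17.T.map_ES φ s hs q (m * q) _).1 (Subgroup.mul_mem _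
    ((K3h17.T.map_ES φ s hs q (m * q) _).2 ha) ((K3h17.T.map_ES φ s hs q (m * q) _).2 hb))

theorem inv_mem {m : ℕ} (s : Γ →* Wreath (G ⋊[φ] Γ) m) (hs : Over φ s) (q : ℕ)
    {a : Wreath (G ⋊[φ] Γ) (m * q) × Γ} (ha : InExt φ s q a) : InExt φ s q a⁻¹ :=
  (K3h17.T.map_ES φ s hs q (m * q) _).1 (Subgroup.inv_mem _
    ((K3h17.T.map_ES φ s hs q (m * q) _).2 ha))

/-- The group of all `z = (f, ρ, σ)` with `∏ [f_i] = (∏ [s(ρ)_j])^q` in the abelianization of `G` and
`sign σ = (sign s(ρ))^q`. -/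
def Ext {m : ℕ} (s : Γ →* Wreath (G ⋊[φ] Γ) m) (hs : Over φ s) (q : ℕ) :
    Subgroup (Wreath (G ⋊[φ] Γ) (m * q) × Γ) where
  carrier := {z | InExt φ s q z}
  one_mem' := one_mem φ s hs q
  mul_mem' := mul_mem φ s hs q
  inv_mem' := inv_mem φ s hs q

end defs

/-- The group `T` (a group of pairs `(w, ρ)`, `ρ ∈ Gal(L / K)`) is the group of a Galois extension
`M / K` which contains `L` such that all automorphisms of `M` act on `L` as the component `ρ` of the
corresponding element of `T`. -/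
def Solvable (K L : Type) [Field K] [Field L] [Algebra K L] {W : Type} [Group W]
    (T : Subgroup (W × (L ≃ₐ[K] L))) : Prop :=
  ∃ (M : Type) (_ : Field M) (_ : Algebra K M) (_ : Algebra L M) (_ : IsScalarTower K L M),
    IsGalois K M ∧ ∃ γ : (M ≃ₐ[K] M) ≃* T,
      ∀ (σ : M ≃ₐ[K] M) (x : L), σ (algebraMap L M x) = algebraMap L M ((γ σ).1.2 x)

/-- The group `T` (a group of pairs `(w, ρ)`, `ρ ∈ Gal(L / K)`) is the group of a Galois extension
`F / K(t)` which contains `L`, with `L` algebraically closed in `F`, such that all automorphisms of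
`F / K(t)` act on `L` as the component `ρ` of the corresponding element of `T`. -/
def RegularlySolvable (K L : Type) [Field K] [Field L] [Algebra K L] {W : Type} [Group W]
    (T : Subgroup (W × (L ≃ₐ[K] L))) : Prop :=
  ∃ (F : Type) (_ : Field F) (_ : Algebra (RatFunc K) F) (_ : Algebra K F) (_ : Algebra L F)
    (_ : IsScalarTower K (RatFunc K) F) (_ : IsScalarTower K L F),
    IsGalois (RatFunc K) F ∧ (∀ y : F, IsAlgebraic L y → y ∈ Set.range (algebraMap L F)) ∧
    ∃ γ : (F ≃ₐ[RatFunc K] F) ≃* T,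
      ∀ (σ : F ≃ₐ[RatFunc K] F) (x : L), σ (algebraMap L F x) = algebraMap L F ((γ σ).1.2 x)

/-- The kernel of the projection `(w, ρ) ↦ ρ` from `T` to `Γ` is isomorphic to the commutator
subgroup of `G ≀ S_n`. -/
def HasKernel (G : Type) [Group G] (n : ℕ) {W Γ : Type} [Group W] [Group Γ]
    (T : Subgroup (W × Γ)) : Prop :=
  Nonempty (((MonoidHom.snd W Γ).comp T.subtype).ker ≃* commutator (Wreath G n))

theorem result (K L : Type) [Field K] [CharZero K] [Field L] [Algebra K L]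
    [FiniteDimensional K L] [IsGalois K L] (G : Type) [Group G] [Finite G]
    (φ : (L ≃ₐ[K] L) →* MulAut G) (m : ℕ) (hm : 4 ≤ m) (hev : Even m)
    (s : (L ≃ₐ[K] L) →* Wreath (G ⋊[φ] (L ≃ₐ[K] L)) m) (hs : Over φ s) :
    ∃ r₀ : ℕ, ∀ r ≥ r₀, ∃ k₀ : ℕ, ∀ k ≥ k₀,
      HasKernel G (m * (r * (2 * k + 1))) (Ext φ s hs (r * (2 * k + 1))) ∧
      RegularlySolvable K L (Ext φ s hs (r * (2 * k + 1))) ∧
      (NumberField K → Solvable K L (Ext φ s hs (r * (2 * k + 1)))) := by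
  obtain ⟨r₀, h⟩ := K3h17.T.mainN K L G φ m hm hev s hs
  refine ⟨r₀ + 2, fun r hr => ?_⟩
  obtain ⟨k₀, h2⟩ := h r (by omega)
  refine ⟨k₀, fun k hk => ?_⟩
  obtain ⟨h3, h4⟩ := h2 k hk (Ext φ s hs (r * (2 * k + 1))) (fun z => Iff.rfl)
  refine ⟨?_, ?_, fun hK => ?_⟩
  · refine K3h17.T.ker_iso φ s (r * (2 * k + 1)) _ ?_ _ (fun z => Iff.rfl)
    have h5 : 4 * (2 * 1) ≤ m * (r * (2 * k + 1)) :=
      Nat.mul_le_mul hm (Nat.mul_le_mul (by omega) (by omega))
    omega
  · obtain ⟨F, i1, i2, i3, i4, i5, i6, i7, i8, γ, hγ, hreg⟩ := h3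
    exact ⟨F, i1, i2, i4, i3, i5, i6, i8, hreg, γ, hγ⟩
  · obtain ⟨M, j1, j2, j3, j4, j5, j6, j7, j8, γ, hγ, -⟩ := h4 (H391R2.T4.hilb_numberField K)
    have h3 : j4 = j2 := Algebra.algebra_ext j4 j2 (fun x => by
      have h4 := @IsScalarTower.algebraMap_apply K K M _ _ _ _ j2 j4 j5 x
      exact h4)
    subst h3
    exact ⟨M, j1, j4, j3, j6, j8, γ, hγ⟩

end Pool.Agent.Results.MP_dadaab_nt.PerfectKernels
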