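import Mathlib
import Pool.Agent.K3h17.Fu

/-!
For EVERY finite group `G` (perfect or not, solvable or not, realizable or not) the wreath products
`G ≀ A_n = G^n ⋊ A_n` with `n = 4 r (2 k + 1)`, `r` large in terms of `G` and `k` large in terms of
`G` and `r`, are regular Galois groups over `K(t)` for every field `K` of characteristic zero, and
Galois groups over every number field.  (As `G` is arbitrary, this includes all towers
`(...((G ≀ A_a) ≀ S_b) ≀ ...) ≀ A_n`.)
-/

set_option autoImplicit false

namespace Pool.Agent.Results.MP_dadaab_nt.WreathAlternating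

/-- The alternating wreath product `G ≀ A_n`: the group of the elements of `G^n ⋊ S_n` over even
permutations. -/
def AltWreath (G : Type) [Group G] (n : ℕ) : Type :=
  (Equiv.Perm.sign.comp (SemidirectProduct.rightHom :
    (Fin n → G) ⋊[mulAutArrow] Equiv.Perm (Fin n) →* Equiv.Perm (Fin n))).ker

/-- Its group structure. -/
instance instGroup (G : Type) [Group G] (n : ℕ) : Group (AltWreath G n) :=
  inferInstanceAs (Group (Equiv.Perm.sign.comp (SemidirectProduct.rightHom :
    (Fin n → G) ⋊[mulAutArrow] Equiv.Perm (Fin n) →* Equiv.Perm (Fin n))).ker)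

/-- `A` is the Galois group of a Galois extension of `K`. -/
def Realizable (K A : Type) [Field K] [Group A] : Prop :=
  ∃ (L : Type) (_ : Field L) (_ : Algebra K L), IsGalois K L ∧ Nonempty (A ≃* (L ≃ₐ[K] L))

/-- `A` is the Galois group of a Galois extension of `K(t)` in which `K` is algebraically
closed. -/
def RegularlyRealizable (K A : Type) [Field K] [Group A] : Prop :=
  ∃ (F : Type) (_ : Field F) (_ : Algebra (RatFunc K) F) (_ : Algebra K F)
    (_ : IsScalarTower K (RatFunc K) F),
    IsGalois (RatFunc K) F ∧ Nonempty (A ≃* (F ≃ₐ[RatFunc K] F)) ∧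
      ∀ y : F, IsAlgebraic K y → y ∈ Set.range (algebraMap K F)

theorem result (G : Type) [Group G] [Finite G] :
    ∃ r₀ : ℕ, ∀ r ≥ r₀, ∃ k₀ : ℕ, ∀ k ≥ k₀, ∀ (K : Type) [Field K] [CharZero K],
      RegularlyRealizable K (AltWreath G (4 * r * (2 * k + 1))) ∧
      (NumberField K → Realizable K (AltWreath G (4 * r * (2 * k + 1)))) := by
  obtain ⟨r₀, h⟩ := K3h17.main_unif G
  refine ⟨r₀, fun r hr => ?_⟩
  obtain ⟨k₀, h2⟩ := h r hr
  refine ⟨k₀, fun k hk K _ _ => ?_⟩
  have h3 := h2 k hk K
  refine ⟨Y793.reg_out K _ h3, fun hK => ?_⟩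
  have hf : Finite (H391R2.Wr G (4 * r * (2 * k + 1))) := H391R2.T4.finite_wr G _
  have hf3 : Finite (AltWreath G (4 * r * (2 * k + 1))) :=
    Subtype.finite (α := H391R2.Wr G (4 * r * (2 * k + 1)))
  exact Y793.hil_out K _ (H391R2.T4.hilb_numberField K) h3

end Pool.Agent.Results.MP_dadaab_nt.WreathAlternating
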